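import Mathlib

/-!
# AT10, row GRN: the algebra
-/

set_option autoImplicit false

noncomputable section

namespace Pool.Agent.PP.T10.H69

open Polynomial

section core

variable {F R : Type*} [Field F] [Ring R] [Algebra F R]

theorem w_pow {ℓ m : ℕ} [Fact ℓ.Prime] [CharP R ℓ] {y : R} {b : F} (hy : y ^ ℓ ^ m = y)
    (hb : b ^ ℓ ^ m = b) :
    (y - algebraMap F R b) ^ ℓ ^ m = y - algebraMap F R b := by
  rw [sub_pow_char_pow_of_commute _ _ (Algebra.commutes b y).symm, hy, ← map_pow, hb]

theorem pow_idem {q : ℕ} (hq : 2 ≤ q) {w : R} (hw : w ^ q = w) :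
    w ^ (q - 1) * w ^ (q - 1) = w ^ (q - 1) := by
  have h1 : w ^ (q - 1) * w ^ (q - 1) = w ^ q * w ^ (q - 2) := by
    rw [← pow_add, ← pow_add]
    congr 1
    omega
  rw [h1, hw, ← pow_succ']
  congr 1
  omega

/-- some `β` has a nonzero idempotent -/
theorem exists_ne [IsAlgClosed F] {q : ℕ} (hq : 2 ≤ q) {i y : R} (hi0 : i ≠ 0) (hy : y ^ q = y) :
    ∃ b : F, b ^ q = b ∧ i * (1 - (y - algebraMap F R b) ^ (q - 1)) ≠ 0 := by
  by_contra hc
  have h0 : ∀ b : F, b ^ q = b → i * (y - algebraMap F R b) ^ (q - 1) = i := by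
    intro b hb
    by_contra h1
    apply hc
    refine ⟨b, hb, fun h2 => h1 ?_⟩
    rw [mul_sub, mul_one, sub_eq_zero] at h2
    exact h2.symm
  have key : ∀ s : Multiset F, (∀ b ∈ s, b ^ q = b) →
      i * aeval y ((s.map fun b => X - C b).prod) ^ (q - 1) = i := by
    intro s
    induction s using Multiset.induction_on with
    | empty =>
      intro _
      rw [Multiset.map_zero, Multiset.prod_zero, map_one, one_pow, mul_one]
    | cons a s ih =>
      intro hs
      rw [Multiset.map_cons, Multiset.prod_cons, map_mul]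
      have h1 : aeval y (X - C a) = y - algebraMap F R a := by
        rw [map_sub, aeval_X, aeval_C]
      have hcom : Commute (aeval y (X - C a)) (aeval y ((s.map fun b => X - C b).prod)) := by
        unfold Commute SemiconjBy
        rw [← map_mul, ← map_mul, mul_comm]
      rw [hcom.mul_pow, ← mul_assoc, h1, h0 a (hs a (Multiset.mem_cons_self a s))]
      exact ih fun b hb => hs b (Multiset.mem_cons_of_mem hb)
  have hdeg : (X ^ q - X : F[X]).Monic := by
    refine monic_X_pow_sub ?_
    rw [degree_X]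
    exact_mod_cast (by omega : 1 < q)
  have hsp : (X ^ q - X : F[X]) = ((X ^ q - X : F[X]).roots.map fun b => X - C b).prod :=
    (IsAlgClosed.splits (X ^ q - X : F[X])).eq_prod_roots_of_monic hdeg
  have h2 := key (X ^ q - X : F[X]).roots fun b hb => by
    have h3 := (mem_roots'.1 hb).2
    rw [IsRoot.def, eval_sub, eval_pow, eval_X, sub_eq_zero] at h3
    exact h3
  rw [← hsp, map_sub, map_pow, aeval_X, hy, sub_self, zero_pow (by omega), mul_zero] at h2
  exact hi0 h2.symm

/-- The algebra in Green's theorem. -/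
theorem core [IsAlgClosed F] {ℓ : ℕ} [Fact ℓ.Prime] [CharP F ℓ] [CharP R ℓ] (α : R →ₐ[F] R)
    {i x : R} (hi : i * i = i) (hi0 : i ≠ 0) (hαi : α i = i) (hix : i * x = x) (hxi : x * i = x)
    (hαx : α x = x + i) {n m : ℕ} (hm : 0 < m) (hx : x ^ ℓ ^ (n + m) = x ^ ℓ ^ n) :
    ∃ j : R, j ≠ 0 ∧ j * j = j ∧ i * j = j ∧ j * i = j ∧ (α ^ ℓ) j = j ∧
      (∀ φ : R →ₐ[F] R, φ i = i → φ x = x → φ j = j) ∧
      ∀ k m : ℕ, k < ℓ → m < ℓ → k ≠ m → (α ^ k) j * (α ^ m) j = 0 := by
  have hℓ : ℓ.Prime := Fact.out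
  have hipow : ∀ k : ℕ, 0 < k → i ^ k = i := by
    intro k hk
    induction k with
    | zero => omega
    | succ k ih =>
      rcases Nat.eq_zero_or_pos k with h | h
      · rw [h, zero_add, pow_one]
      · rw [pow_succ, ih h, hi]
  set y := x ^ ℓ ^ n with hydef
  have hpos : 0 < ℓ ^ n := pow_pos hℓ.pos n
  have hyq : y ^ ℓ ^ m = y := by
    rw [hydef, ← pow_mul, ← pow_add, hx]
  have hq : 2 ≤ ℓ ^ m := by
    calc 2 ≤ ℓ := hℓ.two_le
      _ = ℓ ^ 1 := (pow_one ℓ).symm
      _ ≤ ℓ ^ m := Nat.pow_le_pow_right hℓ.pos hm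
  have hcix : Commute i x := by
    unfold Commute SemiconjBy
    rw [hix, hxi]
  have hciy : Commute i y := hcix.pow_right _
  have hiy : i * y = y := by
    obtain ⟨k, hk⟩ := Nat.exists_eq_succ_of_ne_zero hpos.ne'
    rw [hydef, hk, pow_succ', ← mul_assoc, hix]
  have hyi : y * i = y := by rw [← hciy.eq, hiy]
  have hαy : α y = y + i := by
    rw [hydef, map_pow, hαx, add_pow_char_pow_of_commute _ _ hcix.symm, hipow _ hpos]
  obtain ⟨b, hb, hne⟩ := exists_ne (F := F) hq hi0 hyq
  set w := y - algebraMap F R b with hw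
  have hwq : w ^ ℓ ^ m = w := w_pow hyq hb
  set q := ℓ ^ m with hqdef
  set e := 1 - w ^ (q - 1) with he
  have hee : e * e = e := by
    have h1 := pow_idem hq hwq
    rw [he, mul_sub, sub_mul, sub_mul, one_mul, mul_one, one_mul, h1]
    abel
  have hciw : Commute i w := hciy.sub_right (Algebra.commutes b i).symm
  have hcie : Commute i e := (Commute.one_right i).sub_right (hciw.pow_right _)
  have hcyw : Commute y w := (Commute.refl y).sub_right (Algebra.commutes b y).symm
  have hcye : Commute y e := (Commute.one_right y).sub_right (hcyw.pow_right _)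
  have hwe : w * e = 0 := by
    have h1 : w * w ^ (q - 1) = w := by
      rw [← pow_succ']
      have : q - 1 + 1 = q := by omega
      rw [this, hwq]
    rw [he, mul_sub, mul_one, h1, sub_self]
  have hye : y * e = b • e := by
    have h1 : y = w + algebraMap F R b := by rw [hw]; abel
    calc y * e = (w + algebraMap F R b) * e := by rw [← h1]
      _ = w * e + algebraMap F R b * e := add_mul _ _ _
      _ = b • e := by rw [hwe, zero_add, Algebra.smul_def]
  set j := i * e with hj
  have hij : i * j = j := by rw [hj, ← mul_assoc, hi]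
  have hji : j * i = j := by rw [hj, mul_assoc, ← hcie.eq, ← mul_assoc, hi]
  have hjj : j * j = j := by
    calc j * j = j * i * e := by rw [hj, mul_assoc, mul_assoc, mul_assoc]
      _ = i * (e * e) := by rw [hji, hj, mul_assoc]
      _ = j := by rw [hee]
  have hyj : y * j = b • j := by
    rw [hj, ← mul_assoc, ← hciy.eq, mul_assoc, hye, mul_smul_comm]
  have hjy : j * y = b • j := by
    rw [hj, mul_assoc, ← hcye.eq, hye, mul_smul_comm]
  have hφ : ∀ φ : R →ₐ[F] R, φ i = i → φ y = y → φ j = j := by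
    intro φ h1 h2
    rw [hj, he, hw, map_mul, map_sub, map_one, map_pow, map_sub, AlgHom.commutes, h1, h2]
  have hki : ∀ k : ℕ, (α ^ k) i = i := by
    intro k
    induction k with
    | zero => rw [pow_zero, AlgHom.one_apply]
    | succ k ih => rw [pow_succ', AlgHom.mul_apply, ih, hαi]
  have hky : ∀ k : ℕ, (α ^ k) y = y + (k : F) • i := by
    intro k
    induction k with
    | zero => rw [pow_zero, AlgHom.one_apply, Nat.cast_zero, zero_smul, add_zero]
    | succ k ih =>
      rw [pow_succ', AlgHom.mul_apply, ih, map_add, map_smul, hαi, hαy, Nat.cast_succ, add_smul,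
        one_smul]
      abel
  have hkij : ∀ k : ℕ, i * (α ^ k) j = (α ^ k) j := by
    intro k
    have h1 := congrArg (α ^ k) hij
    rw [map_mul, hki] at h1
    exact h1
  have hkji : ∀ k : ℕ, (α ^ k) j * i = (α ^ k) j := by
    intro k
    have h1 := congrArg (α ^ k) hji
    rw [map_mul, hki] at h1
    exact h1
  have e1 : ∀ k : ℕ, y * (α ^ k) j = (b - (k : F)) • (α ^ k) j := by
    intro k
    have h1 := congrArg (α ^ k) hyj
    rw [map_mul, hky, map_smul, add_mul, smul_mul_assoc, hkij] at h1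
    rw [sub_smul, ← h1]
    abel
  have e2 : ∀ k : ℕ, (α ^ k) j * y = (b - (k : F)) • (α ^ k) j := by
    intro k
    have h1 := congrArg (α ^ k) hjy
    rw [map_mul, hky, map_smul, mul_add, mul_smul_comm, hkji] at h1
    rw [sub_smul, ← h1]
    abel
  refine ⟨j, hne, hjj, hij, hji, ?_, ?_, ?_⟩
  · refine hφ (α ^ ℓ) (hki ℓ) ?_
    rw [hky, CharP.cast_eq_zero, zero_smul, add_zero]
  · intro φ h1 h2
    refine hφ φ h1 ?_
    rw [hydef, map_pow, h2]
  · intro k m' hk hm' hkm
    have h1 : (α ^ k) j * y * (α ^ m') j = (b - (k : F)) • ((α ^ k) j * (α ^ m') j) := by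
      rw [e2, smul_mul_assoc]
    have h2 : (α ^ k) j * (y * (α ^ m') j) = (b - (m' : F)) • ((α ^ k) j * (α ^ m') j) := by
      rw [e1, mul_smul_comm]
    rw [mul_assoc, h2] at h1
    have h3 : ((m' : F) - (k : F)) • ((α ^ k) j * (α ^ m') j) = 0 := by
      have h4 : (m' : F) - (k : F) = (b - (k : F)) - (b - (m' : F)) := by ring
      rw [h4, sub_smul, h1, sub_self]
    rcases smul_eq_zero.1 h3 with h4 | h4
    · exfalso
      rw [sub_eq_zero] at h4
      have h5 := (CharP.natCast_eq_natCast F ℓ).1 h4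
      rw [Nat.ModEq, Nat.mod_eq_of_lt hm', Nat.mod_eq_of_lt hk] at h5
      exact hkm h5.symm
    · exact h4

end core

end Pool.Agent.PP.T10.H69
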