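import Pool.Agent.AT10.Stmts1
import Pool.Agent.Helper25_AT8.IDP
import Pool.Agent.Helper69_AT10.Core

/-!
# AT10, row GRN: Green's theorem with the polynomial `T ^ q - T`
-/

open scoped BigOperators

set_option autoImplicit false

noncomputable section

namespace Pool.Agent.PP.T10.H69

open Pool.Agent.Helper51_AWC Pool.Agent.Helper79_WRA Pool.Agent.PP Pool.Agent.PP.KF
open Pool.Agent.PP.K9 Pool.Agent.PP.K9.H97 Pool.Agent.PP.H75 Pool.Agent.PP.T3 Pool.Agent.PP.T2
open Pool.Agent.PP.T5 Pool.Agent.PP.TB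
open Pool.Agent.PP.T8 (rs pw fv rd Ip Rv)

section alg

variable {F G : Type} [Field F] [Group G] [Finite G]

/-- conjugation as an algebra homomorphism -/
def cA (g : G) : MonoidAlgebra F G →ₐ[F] MonoidAlgebra F G :=
  AlgHom.ofLinearMap
    { toFun := fun x => ma (cj g (maL.symm x))
      map_add' := fun x y => by
        rw [map_add, ← ma_add]
        rfl
      map_smul' := fun c x => by
        rw [map_smul, RingHom.id_apply, ← ma_smul]
        rfl }
    (by
      have h1 : maL.symm (1 : MonoidAlgebra F G) = dl F (1 : G) := by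
        rw [LinearEquiv.symm_apply_eq, maL_apply, ma_dl]
        rfl
      change ma (cj g (maL.symm (1 : MonoidAlgebra F G))) = 1
      rw [h1]
      have h2 : cj g (dl F (1 : G)) = dl F (1 : G) := by
        funext x
        unfold cj dl
        by_cases hx : x = 1
        · subst hx
          rw [mul_one, inv_mul_cancel]
        · have h3 : ¬ g⁻¹ * x * g = 1 := by
            intro h3
            apply hx
            have h4 : x = g * (g⁻¹ * x * g) * g⁻¹ := by group
            rw [h4, h3, mul_one, mul_inv_cancel]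
          rw [if_neg hx, if_neg h3]
      rw [h2, ma_dl]
      rfl)
    (fun x y => by
      change ma (cj g (maL.symm (x * y))) = ma (cj g (maL.symm x)) * ma (cj g (maL.symm y))
      have h1 : maL.symm (x * y) = mulF (maL.symm x) (maL.symm y) := by
        rw [LinearEquiv.symm_apply_eq, maL_apply, ma_mul]
        rw [← maL_apply, ← maL_apply, LinearEquiv.apply_symm_apply, LinearEquiv.apply_symm_apply]
      rw [h1, cj_mulF, ma_mul])

theorem cA_ma (g : G) (a : G → F) : cA g (ma a) = ma (cj g a) := by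
  change ma (cj g (maL.symm (maL a))) = _
  rw [LinearEquiv.symm_apply_apply]

theorem cA_pow (g : G) (a : G → F) (k : ℕ) : ((cA g : _ →ₐ[F] _) ^ k) (ma a) = ma (cj (g ^ k) a) := by
  induction k with
  | zero => rw [pow_zero, pow_zero, AlgHom.one_apply, cj_one]
  | succ k ih => rw [pow_succ', pow_succ', AlgHom.mul_apply, ih, cA_ma, cj_cj]

theorem ma_pw (x : G → F) (n : ℕ) : ma (pw x n) = ma x ^ n := by
  induction n with
  | zero =>
    have h : pw x 0 = dl F (1 : G) := rfl
    rw [h, ma_dl, pow_zero]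
    rfl
  | succ n ih =>
    have h : pw x (n + 1) = mulF x (pw x n) := rfl
    rw [h, ma_mul, ih, pow_succ']

theorem charP_ma {ℓ : ℕ} [CharP F ℓ] : CharP (MonoidAlgebra F G) ℓ :=
  charP_of_injective_algebraMap (algebraMap F (MonoidAlgebra F G)).injective ℓ

end alg

section grp

variable {G : Type} [Group G] [Finite G]

/-- a subgroup of index `ℓ` of an `ℓ`-group is normal -/
theorem norm_of_index {ℓ : ℕ} [Fact ℓ.Prime] {P Q : Subgroup G} (hP : IsPGroup ℓ P) (hQ : Q ≤ P)
    (hix : Q.relIndex P = ℓ) {v g : G} (hv : v ∈ P) (hg : g ∈ Q) : v * g * v⁻¹ ∈ Q := by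
  have hℓ : ℓ.Prime := Fact.out
  have h1 : (Q.subgroupOf P).index = ℓ := hix
  have h2 : (Nat.card P).minFac = ℓ := by
    obtain ⟨n, hn⟩ := IsPGroup.iff_card.1 hP
    have h3 : n ≠ 0 := by
      rintro rfl
      rw [pow_zero] at hn
      have h4 : (Q.subgroupOf P).index ∣ Nat.card P := Subgroup.index_dvd_card _
      rw [h1, hn] at h4
      exact hℓ.one_lt.ne' (Nat.dvd_one.1 h4)
    rw [hn, hℓ.pow_minFac h3]
  have h3 : (Q.subgroupOf P).Normal := Subgroup.normal_of_index_eq_minFac_card (by rw [h1, h2])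
  have h4 := h3.conj_mem ⟨g, hQ hg⟩ (by rw [Subgroup.mem_subgroupOf]; exact hg) ⟨v, hv⟩
  rw [Subgroup.mem_subgroupOf] at h4
  exact h4

/-- `P` is generated by `Q` and `u` -/
theorem gen_of_index {ℓ : ℕ} [Fact ℓ.Prime] {P Q K : Subgroup G} (hQ : Q ≤ P)
    (hix : Q.relIndex P = ℓ) {u : G} (hu : u ∈ P) (hu' : u ∉ Q) (hK : Q ≤ K) (hKu : u ∈ K) :
    P ≤ K := by
  have hℓ : ℓ.Prime := Fact.out
  have h1 : Q.relIndex (K ⊓ P) * (K ⊓ P).relIndex P = Q.relIndex P :=
    Subgroup.relIndex_mul_relIndex Q (K ⊓ P) P (le_inf hK hQ) inf_le_right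
  rw [hix] at h1
  have h2 : Q.relIndex (K ⊓ P) ≠ 1 := by
    intro h
    rw [Subgroup.relIndex_eq_one] at h
    exact hu' (h ⟨hKu, hu⟩)
  have h3 : (K ⊓ P).relIndex P = 1 := by
    rcases (Nat.prime_mul_iff.1 (h1 ▸ hℓ)) with h | h
    · exact h.2
    · exact absurd h.2 h2
  rw [Subgroup.relIndex_eq_one] at h3
  exact h3.trans inf_le_left

end grp

theorem grn : GrnStmt := by
  intro ℓ _ F _ hF G _ _ P hP i hi Q u a hT
  have hℓ : ℓ.Prime := Fact.out
  have := hF.char
  have := hF.closed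
  have : CharP (MonoidAlgebra F G) ℓ := charP_ma
  -- invariance
  have hcji : ∀ v ∈ P, cj v i = i := fun v hv => (cj_eq_iff v i).2 (hi.iv v hv)
  have hcja : ∀ v ∈ Q, cj v a = a := fun v hv => (cj_eq_iff v a).2 (hT.iv v hv)
  have hnorm : ∀ v ∈ P, ∀ g ∈ Q, v * g * v⁻¹ ∈ Q := fun v hv g hg =>
    norm_of_index hP hT.le hT.ix hv hg
  have hupow : ∀ k : ℕ, u ^ k ∈ P := fun k => P.pow_mem hT.mem k
  have hul : u ^ ℓ ∈ Q := by
    have h3 : (Q.subgroupOf P).Normal := ⟨fun n hn g => by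
      rw [Subgroup.mem_subgroupOf] at hn ⊢
      exact hnorm g g.2 n hn⟩
    have h4 := Subgroup.pow_index_mem (Q.subgroupOf P) ⟨u, hT.mem⟩
    have h5 : (Q.subgroupOf P).index = ℓ := hT.ix
    rw [h5, Subgroup.mem_subgroupOf] at h4
    exact h4
  have hinvpow : ∀ (b : G → F), (∀ v ∈ Q, cj v b = b) → ∀ (k : ℕ) (v : G), v ∈ Q →
      cj v (cj (u ^ k) b) = cj (u ^ k) b := by
    intro b hb k v hv
    have h1 : v * u ^ k = u ^ k * ((u ^ k)⁻¹ * v * ((u ^ k)⁻¹)⁻¹) := by group
    rw [cj_cj, h1, ← cj_cj, hb _ (hnorm _ (P.inv_mem (hupow k)) v hv)]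
  -- the element `x`
  set x : G → F := - ∑ k ∈ Finset.range ℓ, (k : F) • cj (u ^ k) a with hx
  have hmx : ma x = - ∑ k ∈ Finset.range ℓ, (k : F) • ma (cj (u ^ k) a) := by
    have h1 : ma x + ma (∑ k ∈ Finset.range ℓ, (k : F) • cj (u ^ k) a) = 0 := by
      rw [← ma_add, hx, neg_add_cancel, ma_zero]
    rw [eq_neg_of_add_eq_zero_left h1, ma_sum]
    simp only [ma_smul]
  have hmi : ma i * ma i = ma i := by rw [← ma_mul, hi.id]
  have hia : ma i * ma a = ma a := by rw [← ma_mul, hT.lm]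
  have hai : ma a * ma i = ma a := by rw [← ma_mul, hT.rm]
  have hci : ∀ v ∈ P, cA v (ma i) = ma i := fun v hv => by rw [cA_ma, hcji v hv]
  have hia' : ∀ k : ℕ, ma i * ma (cj (u ^ k) a) = ma (cj (u ^ k) a) := fun k => by
    have h1 := congrArg (cA (u ^ k)) hia
    rw [map_mul, hci _ (hupow k), cA_ma] at h1
    exact h1
  have hai' : ∀ k : ℕ, ma (cj (u ^ k) a) * ma i = ma (cj (u ^ k) a) := fun k => by
    have h1 := congrArg (cA (u ^ k)) hai
    rw [map_mul, hci _ (hupow k), cA_ma] at h1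
    exact h1
  have hix : ma i * ma x = ma x := by
    rw [hmx, mul_neg, Finset.mul_sum]
    congr 1
    refine Finset.sum_congr rfl fun k _ => ?_
    rw [mul_smul_comm, hia']
  have hxi : ma x * ma i = ma x := by
    rw [hmx, neg_mul, Finset.sum_mul]
    congr 1
    refine Finset.sum_congr rfl fun k _ => ?_
    rw [smul_mul_assoc, hai']
  have htr : ∑ k ∈ Finset.range ℓ, ma (cj (u ^ k) a) = ma i := by
    rw [← ma_sum, hT.tr]
  have hux : cA u (ma x) = ma x + ma i := by
    set f : ℕ → MonoidAlgebra F G := fun k => (1 - (k : F)) • ma (cj (u ^ k) a) with hf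
    have h1 : cA u (ma x) = ∑ k ∈ Finset.range ℓ, f (k + 1) := by
      rw [hmx, map_neg, map_sum, ← Finset.sum_neg_distrib]
      refine Finset.sum_congr rfl fun k _ => ?_
      rw [map_smul, cA_ma, cj_cj, ← pow_succ', hf, ← neg_smul]
      congr 1
      push_cast
      ring
    have h2 : ma x + ma i = ∑ k ∈ Finset.range ℓ, f k := by
      rw [hmx, ← htr, ← Finset.sum_neg_distrib, ← Finset.sum_add_distrib]
      refine Finset.sum_congr rfl fun k _ => ?_
      rw [hf]
      simp only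
      rw [sub_smul, one_smul]
      abel
    have h3 : f ℓ = f 0 := by
      rw [hf]
      simp only
      rw [CharP.cast_eq_zero, Nat.cast_zero, pow_zero, cj_one, hcja _ hul]
    have h4 := Finset.sum_range_succ f ℓ
    have h5 := Finset.sum_range_succ' f ℓ
    rw [h5, h3] at h4
    rw [h1, h2]
    exact add_right_cancel h4
  have hvx : ∀ v ∈ Q, cA v (ma x) = ma x := by
    intro v hv
    rw [hmx, map_neg, map_sum]
    congr 1
    refine Finset.sum_congr rfl fun k _ => ?_
    rw [map_smul, cA_ma, hinvpow a hcja k v hv]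
  -- the powers of `x`
  obtain ⟨S, hS, hmem⟩ := Pool.Agent.PP.T8.H25.pw_fin hF x
  obtain ⟨n, m, hm, hnm⟩ : ∃ n m : ℕ, 0 < m ∧ ma x ^ ℓ ^ (n + m) = ma x ^ ℓ ^ n := by
    obtain ⟨s, t, hst, h⟩ := Finite.exists_ne_map_eq_of_infinite
      (fun n : ℕ => fun g : G => (⟨pw x (ℓ ^ n) g, hmem _ g⟩ : S))
    have h1 : pw x (ℓ ^ s) = pw x (ℓ ^ t) := by
      funext g
      exact congrArg Subtype.val (congrFun h g)
    have h2 : ma x ^ ℓ ^ s = ma x ^ ℓ ^ t := by
      rw [← ma_pw, ← ma_pw, h1]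
    rcases lt_or_gt_of_ne hst with h3 | h3
    · exact ⟨s, t - s, Nat.sub_pos_of_lt h3, by rw [Nat.add_sub_cancel' h3.le, h2]⟩
    · exact ⟨t, s - t, Nat.sub_pos_of_lt h3, by rw [Nat.add_sub_cancel' h3.le, h2]⟩
  have hi0 : ma i ≠ 0 := fun h => hi.nz (ma_injective (h.trans ma_zero.symm))
  obtain ⟨j', hj0, hjj, hij, hji, hjl, hjφ, hort⟩ := core (cA u) hmi hi0 (hci u hT.mem) hix hxi hux
    hm hnm
  obtain ⟨j, rfl⟩ := ma_surjective j'
  have hQj : ∀ v ∈ Q, cj v j = j := by
    intro v hv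
    have h1 := hjφ (cA v) (hci v (hT.le hv)) (hvx v hv)
    rw [cA_ma] at h1
    exact ma_injective h1
  have hlj : cj (u ^ ℓ) j = j := by
    rw [cA_pow] at hjl
    exact ma_injective hjl
  have hort' : ∀ k m : ℕ, k < ℓ → m < ℓ → k ≠ m →
      mulF (cj (u ^ k) j) (cj (u ^ m) j) = 0 := by
    intro k m hk hm hkm
    apply ma_injective
    rw [ma_mul, ma_zero, ← cA_pow, ← cA_pow]
    exact hort k m hk hm hkm
  -- the sum of the conjugates
  set J : G → F := ∑ k ∈ Finset.range ℓ, cj (u ^ k) j with hJ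
  have hmJ : ma J = ∑ k ∈ Finset.range ℓ, ma (cj (u ^ k) j) := by rw [hJ, ma_sum]
  have hQJ : ∀ v ∈ Q, cj v J = J := by
    intro v hv
    apply ma_injective
    rw [← cA_ma, hmJ, map_sum]
    refine Finset.sum_congr rfl fun k _ => ?_
    rw [cA_ma, hinvpow j hQj k v hv]
  have huJ : cj u J = J := by
    apply ma_injective
    rw [← cA_ma, hmJ, map_sum]
    have h1 : ∑ k ∈ Finset.range ℓ, cA u (ma (cj (u ^ k) j)) =
        ∑ k ∈ Finset.range ℓ, ma (cj (u ^ (k + 1)) j) := by
      refine Finset.sum_congr rfl fun k _ => ?_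
      rw [cA_ma, cj_cj, ← pow_succ']
    have h4 := Finset.sum_range_succ (fun k => ma (cj (u ^ k) j)) ℓ
    have h5 := Finset.sum_range_succ' (fun k => ma (cj (u ^ k) j)) ℓ
    rw [h5] at h4
    simp only [pow_zero, cj_one, hlj] at h4
    rw [h1]
    exact add_right_cancel h4
  let K : Subgroup G :=
    { carrier := {v | cj v J = J}
      mul_mem' := fun {v w} hv hw => by
        change cj (v * w) J = J
        rw [← cj_cj, show cj w J = J from hw]
        exact hv
      one_mem' := cj_one J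
      inv_mem' := fun {v} hv => by
        change cj v⁻¹ J = J
        have h1 : cj v⁻¹ (cj v J) = J := cj_inv_cj v J
        rw [show cj v J = J from hv] at h1
        exact h1 }
  have hPJ : ∀ v ∈ P, cj v J = J := fun v hv =>
    gen_of_index (K := K) hT.le hT.ix hT.mem hT.nm hQJ huJ hv
  have hidk : ∀ k : ℕ, ma (cj (u ^ k) j) * ma (cj (u ^ k) j) = ma (cj (u ^ k) j) := fun k => by
    have h1 := congrArg (cA (u ^ k)) hjj
    rw [map_mul, cA_ma] at h1
    exact h1
  have hijk : ∀ k : ℕ, ma i * ma (cj (u ^ k) j) = ma (cj (u ^ k) j) := fun k => by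
    have h1 := congrArg (cA (u ^ k)) hij
    rw [map_mul, hci _ (hupow k), cA_ma] at h1
    exact h1
  have hjik : ∀ k : ℕ, ma (cj (u ^ k) j) * ma i = ma (cj (u ^ k) j) := fun k => by
    have h1 := congrArg (cA (u ^ k)) hji
    rw [map_mul, hci _ (hupow k), cA_ma] at h1
    exact h1
  have hJk : ∀ k ∈ Finset.range ℓ, ma J * ma (cj (u ^ k) j) = ma (cj (u ^ k) j) := by
    intro k hk
    rw [hmJ, Finset.sum_mul, Finset.sum_eq_single_of_mem k hk, hidk]
    intro m hm hmk
    rw [← ma_mul, hort' m k (Finset.mem_range.1 hm) (Finset.mem_range.1 hk) hmk, ma_zero]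
  have hJJ : mulF J J = J := by
    apply ma_injective
    rw [ma_mul]
    nth_rewrite 2 [hmJ]
    rw [Finset.mul_sum, Finset.sum_congr rfl hJk, ← hmJ]
  have hiJ : mulF i J = J := by
    apply ma_injective
    rw [ma_mul, hmJ, Finset.mul_sum]
    exact Finset.sum_congr rfl fun k _ => hijk k
  have hJi : mulF J i = J := by
    apply ma_injective
    rw [ma_mul, hmJ, Finset.sum_mul]
    exact Finset.sum_congr rfl fun k _ => hjik k
  have hJ1 : J = i := by
    rcases hi.pr J hJJ (fun v hv => (cj_eq_iff v J).1 (hPJ v hv)) hiJ hJi with h | h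
    · exfalso
      have h1 := hJk 0 (Finset.mem_range.2 hℓ.pos)
      rw [h, ma_zero, zero_mul, pow_zero, cj_one] at h1
      exact hj0 h1.symm
    · exact h
  refine ⟨j, ⟨hT.le, hT.ix, hT.mem, hT.nm, fun v hv => (cj_eq_iff v j).1 (hQj v hv), ?_, ?_, hJ1⟩,
    ?_, hort'⟩
  · exact ma_injective (by rw [ma_mul, hij])
  · exact ma_injective (by rw [ma_mul, hji])
  · exact ma_injective (by rw [ma_mul, hjj])

end Pool.Agent.PP.T10.H69
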