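import Pool.Agent.AT10.Stmts2
import Pool.Agent.Helper69_AT6.SVV
import Pool.Agent.Helper98_AT3.Fxs
import Pool.Agent.Helper88_AT8.Dor

/-!
# AT10, row LNK: the inner product for the family `sb b`
-/

open scoped BigOperators

set_option autoImplicit false

noncomputable section

namespace Pool.Agent.PP.T10.H69

open Pool.Agent.Helper51_AWC Pool.Agent.Helper79_WRA Pool.Agent.PP Pool.Agent.PP.KF
open Pool.Agent.PP.K9 Pool.Agent.PP.K9.H97 Pool.Agent.PP.H75 Pool.Agent.PP.T3 Pool.Agent.PP.T2
open Pool.Agent.PP.T5 Pool.Agent.PP.TB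
open Pool.Agent.PP.T8 (rs pw fv rd Ip Rv)

attribute [local instance] Ideal.Quotient.field

section tools

variable {M : Ideal (integralClosure ℤ ℂ)} [M.IsMaximal] {G : Type} [Group G] [Finite G]

theorem gv_zero (C : Subgroup G) (w : G) (χ : G → ℂ) : gv M C w (0 : G → FF M) χ = 0 := by
  unfold gv
  have h : (fun t : C => (0 : G → FF M) t) = (0 : C → FF M) := rfl
  rw [h, T3.H98.eh_zero]
  unfold gbv
  have := Fintype.ofFinite C
  rw [finsum_eq_sum_of_fintype, Finset.sum_eq_zero]
  intro t _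
  rw [Pi.zero_apply, zero_mul]

/-- the sum of the values on a class -/
theorem class_sum [Fintype G] (z : G) (H : G → ℂ) (h0 : ∀ u, (¬ ∃ q : G, q * z * q⁻¹ = u) → H u = 0) :
    ∑ q : G, H (q * z * q⁻¹) = (Nat.card (Cu z) : ℂ) * ∑ u : G, H u := by
  classical
  have h1 : ∀ q : G, H (q * z * q⁻¹) = ∑ u : G, if q * z * q⁻¹ = u then H u else 0 := by
    intro q
    rw [Finset.sum_ite_eq Finset.univ (q * z * q⁻¹) H, if_pos (Finset.mem_univ _)]
  rw [Finset.sum_congr rfl fun q _ => h1 q, Finset.sum_comm, Finset.mul_sum]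
  refine Finset.sum_congr rfl fun u _ => ?_
  by_cases hu : ∃ q : G, q * z * q⁻¹ = u
  · obtain ⟨q, hq⟩ := hu
    rw [← Equiv.sum_comp (Equiv.mulLeft q)]
    have h2 : ∀ c : G, (if (Equiv.mulLeft q) c * z * ((Equiv.mulLeft q) c)⁻¹ = u then H u else 0) =
        if c ∈ Cu z then H u else 0 := by
      intro c
      have e : (Equiv.mulLeft q) c * z * ((Equiv.mulLeft q) c)⁻¹ = q * (c * z * c⁻¹) * q⁻¹ := by
        simp only [Equiv.coe_mulLeft]
        group
      rw [e]
      refine if_congr ?_ rfl rfl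
      constructor
      · intro h3
        rw [← hq] at h3
        have h4 : c * z * c⁻¹ = z := mul_left_cancel (mul_right_cancel h3)
        rw [Subgroup.mem_centralizer_singleton_iff]
        calc c * z = c * z * c⁻¹ * c := by group
          _ = z * c := by rw [h4]
      · intro h3
        have h4 : c * z = z * c := T3.H62.comm_Cu h3
        rw [← hq, h4]
        group
    rw [Finset.sum_congr rfl fun c _ => h2 c, Finset.sum_ite, Finset.sum_const_zero, add_zero,
      Finset.sum_const, nsmul_eq_mul]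
    have h3 : (Finset.univ.filter fun c : G => c ∈ Cu z).card = Nat.card (Cu z) := by
      rw [Nat.card_eq_fintype_card, Fintype.card_subtype]
    rw [h3]
  · rw [h0 u hu, mul_zero]
    exact Finset.sum_eq_zero fun q _ => by
      rw [ite_self]

end tools

theorem lnk (hSB : SbeStmt) (hBL : BloStmt) : LnkStmt := by
  classical
  intro ℓ _ M _ hM G _ _ e V Z γ b hZ c χ hχ ψ hψ
  have := Fintype.ofFinite G
  obtain ⟨hE, hconj⟩ := hSB ℓ M hM G e V Z γ b hZ
  have hZp : ∀ z ∈ Z, El ℓ z := by
    intro z hz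
    obtain ⟨n, hn⟩ := hZ.tp.pg ⟨z, hZ.le hz⟩
    exact ⟨n, congrArg Subtype.val hn⟩
  have hsb1 : ∀ z ∈ Z, sb b z z = b z := by
    intro z hz
    have h1 := hconj z hz 1
    rw [one_mul, inv_one, mul_one, cj_one] at h1
    exact h1
  have hsb0 : ∀ z u : G, (¬ ∃ q : G, q * z * q⁻¹ = u) → sb b z u = 0 := by
    intro z u h
    unfold sb
    rw [dif_neg h]
  -- one element of `Z`
  have key : ∀ z ∈ Z, ∑ g : G, ∑ u : G, (if Lp ℓ g u then
      gv M (Cu u) g (sb b z u) χ * starRingEnd ℂ (ψ g) else 0) =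
      (Nat.card G : ℂ) * mm M ℓ (Cu z) z (b z) χ ψ := by
    intro z hz
    have hix : Ix (Cu z) (b z) := (hZ.lb z hz).1.bx.ix
    rw [Finset.sum_comm]
    set H : G → ℂ := fun u => ∑ g : G, (if Lp ℓ g u then
      gv M (Cu u) g (sb b z u) χ * starRingEnd ℂ (ψ g) else 0) with hH
    have h0 : ∀ u, (¬ ∃ q : G, q * z * q⁻¹ = u) → H u = 0 := by
      intro u hu
      rw [hH]
      refine Finset.sum_eq_zero fun g _ => ?_
      rw [hsb0 z u hu, gv_zero, zero_mul, ite_self]
    have h1 := class_sum z H h0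
    have h2 : ∀ q : G, H (q * z * q⁻¹) = H z := by
      intro q
      rw [hH]
      change (∑ g : G, (if Lp ℓ g (q * z * q⁻¹) then
        gv M (Cu (q * z * q⁻¹)) g (sb b z (q * z * q⁻¹)) χ * starRingEnd ℂ (ψ g) else 0)) =
        ∑ g : G, (if Lp ℓ g z then gv M (Cu z) g (sb b z z) χ * starRingEnd ℂ (ψ g) else 0)
      rw [← Equiv.sum_comp (MulAut.conj q).toEquiv]
      refine Finset.sum_congr rfl fun g _ => ?_
      change (if Lp ℓ (q * g * q⁻¹) (q * z * q⁻¹) then
        gv M (Cu (q * z * q⁻¹)) (q * g * q⁻¹) (sb b z (q * z * q⁻¹)) χ *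
          starRingEnd ℂ (ψ (q * g * q⁻¹)) else 0) = _
      rw [hconj z hz q, hsb1 z hz, T6.H69.gv_cj hix (T8.H88.irr_conj hχ) q g,
        T8.H88.irr_conj hψ g q]
      exact if_congr (T6.H69.lp_conj_iff q) rfl rfl
    have h3 : H z = (Nat.card (Cu z) : ℂ) * mm M ℓ (Cu z) z (b z) χ ψ := by
      have h4 := hBL ℓ M hM G z z (fun c hc => (T3.H62.comm_Cu hc).symm) (b z) hix χ hχ ψ hψ
      have hc0 : (Nat.card (Cu z) : ℂ) ≠ 0 := by
        have : 0 < Nat.card (Cu z) := Nat.card_pos
        exact_mod_cast this.ne'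
      rw [← h4, ← mul_assoc, mul_inv_cancel₀ hc0, one_mul, finsum_eq_sum_of_fintype, hH]
      change (∑ g : G, (if Lp ℓ g z then
        gv M (Cu z) g (sb b z z) χ * starRingEnd ℂ (ψ g) else 0)) = _
      rw [← Equiv.sum_comp (Equiv.mulLeft z)]
      refine Finset.sum_congr rfl fun s _ => ?_
      rw [finsum_eq_if, hsb1 z hz]
      refine if_congr ?_ rfl rfl
      change Lp ℓ (z * s) z ↔ _
      constructor
      · intro h5
        have h6 : z * (z * s) = z * s * z := h5.com
        have h7 : z * s = s * z := by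
          rw [mul_assoc] at h6
          exact mul_left_cancel h6
        refine ⟨?_, ?_⟩
        · rw [Subgroup.mem_centralizer_singleton_iff]
          exact h7.symm
        · have h8 := h5.reg
          rw [inv_mul_cancel_left] at h8
          exact h8
      · rintro ⟨h5, h6⟩
        have h7 : s * z = z * s := T3.H62.comm_Cu h5
        refine ⟨hZp z hz, ?_, ?_⟩
        · change z * (z * s) = z * s * z
          rw [mul_assoc, h7]
        · rw [inv_mul_cancel_left]
          exact h6
    rw [Finset.sum_congr rfl fun q _ => h2 q, Finset.sum_const, nsmul_eq_mul, Finset.card_univ,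
      ← Nat.card_eq_fintype_card, h3] at h1
    have hc0 : (Nat.card (Cu z) : ℂ) ≠ 0 := by
      have : 0 < Nat.card (Cu z) := Nat.card_pos
      exact_mod_cast this.ne'
    have h5 : (Nat.card (Cu z) : ℂ) * ((Nat.card G : ℂ) * mm M ℓ (Cu z) z (b z) χ ψ) =
        (Nat.card (Cu z) : ℂ) * ∑ u : G, H u := by
      rw [← h1]
      ring
    exact (mul_left_cancel₀ hc0 h5).symm
  -- the sum
  have hfg : ∀ g : G, fg M ℓ c (fun (z : Z) (u : G) => sb b (z : G) u) χ g =
      ∑ u : G, if Lp ℓ g u then ∑ z : Z, c z * gv M (Cu u) g (sb b (z : G) u) χ else 0 := by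
    intro g
    unfold fg fu
    rw [finsum_eq_sum_of_fintype]
    refine Finset.sum_congr rfl fun u _ => ?_
    rw [finsum_eq_if, mul_inv_cancel_left, finsum_eq_sum_of_fintype]
  have hsum : ∑ᶠ g : G, fg M ℓ c (fun (z : Z) (u : G) => sb b (z : G) u) χ g *
      starRingEnd ℂ (ψ g) = (Nat.card G : ℂ) * ∑ z : Z, c z * mm M ℓ (Cu (z : G)) z (b z) χ ψ := by
    rw [finsum_eq_sum_of_fintype]
    calc ∑ g : G, fg M ℓ c (fun (z : Z) (u : G) => sb b (z : G) u) χ g * starRingEnd ℂ (ψ g)
        = ∑ g : G, ∑ u : G, ∑ z : Z, c z * (if Lp ℓ g u then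
            gv M (Cu u) g (sb b (z : G) u) χ * starRingEnd ℂ (ψ g) else 0) := by
          refine Finset.sum_congr rfl fun g _ => ?_
          rw [hfg g, Finset.sum_mul]
          refine Finset.sum_congr rfl fun u _ => ?_
          by_cases h : Lp ℓ g u
          · rw [if_pos h, Finset.sum_mul]
            refine Finset.sum_congr rfl fun z _ => ?_
            rw [if_pos h, mul_assoc]
          · rw [if_neg h, zero_mul]
            refine (Finset.sum_eq_zero fun z _ => ?_).symm
            rw [if_neg h, mul_zero]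
      _ = ∑ z : Z, c z * ∑ g : G, ∑ u : G, (if Lp ℓ g u then
            gv M (Cu u) g (sb b (z : G) u) χ * starRingEnd ℂ (ψ g) else 0) := by
          have h1 : ∀ g : G, ∑ u : G, ∑ z : Z, c z * (if Lp ℓ g u then
            gv M (Cu u) g (sb b (z : G) u) χ * starRingEnd ℂ (ψ g) else 0) =
            ∑ z : Z, ∑ u : G, c z * (if Lp ℓ g u then
            gv M (Cu u) g (sb b (z : G) u) χ * starRingEnd ℂ (ψ g) else 0) := fun g =>
            Finset.sum_comm
          rw [Finset.sum_congr rfl fun g _ => h1 g, Finset.sum_comm]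
          refine Finset.sum_congr rfl fun z _ => ?_
          rw [Finset.mul_sum]
          refine Finset.sum_congr rfl fun g _ => ?_
          rw [Finset.mul_sum]
      _ = _ := by
          rw [Finset.mul_sum]
          refine Finset.sum_congr rfl fun z _ => ?_
          rw [key z z.2]
          ring
  have hG0 : (Nat.card G : ℂ) ≠ 0 := by
    have : 0 < Nat.card G := Nat.card_pos
    exact_mod_cast this.ne'
  rw [hsum, ← mul_assoc, inv_mul_cancel₀ hG0, one_mul, finsum_eq_sum_of_fintype]

end Pool.Agent.PP.T10.H69
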