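import Pool.Agent.AT10.Stmts3
import Pool.Agent.Helper88_AT3.Loc
import Pool.Agent.Helper62_AT3.LCJ
import Pool.Agent.Helper49_AT3.BRG
import Pool.Agent.Helper65_AT2.TYA
import Pool.Agent.Helper32_AT2.PWU
import Pool.Agent.Helper79_AT3.FUS

/-!
# AT10, row ZLO: the data for `Z = Z(V) ^ (ℓ ^ p)` and the local property
-/

open scoped BigOperators

set_option autoImplicit false

noncomputable section

namespace Pool.Agent.PP.T10.H69

open Pool.Agent.Helper51_AWC Pool.Agent.Helper79_WRA Pool.Agent.PP Pool.Agent.PP.KF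
open Pool.Agent.PP.K9 Pool.Agent.PP.K9.H97 Pool.Agent.PP.H75 Pool.Agent.PP.T3 Pool.Agent.PP.T2
open Pool.Agent.PP.T5 Pool.Agent.PP.TB
open Pool.Agent.PP.T8 (rs pw fv rd Ip Rv)

attribute [local instance] Ideal.Quotient.field

section tools

variable {F G : Type} [Field F] [Group G] [Finite G] {ℓ : ℕ} [Fact ℓ.Prime]

theorem brx (hF : GoodF ℓ F) {P : Subgroup G} (hP : IsPGroup ℓ P) {e : G → F} (he : IsIdem e) :
    Ix (Subgroup.centralizer (P : Set G)) (br P e) :=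
  ⟨fun _ hx => Pool.Agent.PP.H66.br_of_not_mem hx,
    (Pool.Agent.PP.H20.brm ℓ F hF G P (Subgroup.centralizer (P : Set G)) hP le_rfl
      (Subgroup.centralizer_le_normalizer _)).2.2 e he⟩

/-- uniqueness of the local block -/
theorem loc_un (hF : GoodF ℓ F) {V : Subgroup G} (hV : IsPGroup ℓ V) {γ : G → F}
    (hγ : Bx (Subgroup.centralizer (V : Set G)) γ) {z : G} (hVC : V ≤ Cu z) {b b' : G → F}
    (hb : Bx (Cu z) b) (hb' : Bx (Cu z) b') (h : mulF (br V b) γ = γ)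
    (h' : mulF (br V b') γ = γ) : b = b' := by
  rcases hb.dich hb' with h0 | h0
  · exact h0
  · exfalso
    apply hγ.ne
    have h1 := T3.H88.br_mul hF hV hVC hb.ix hb'.ix
    rw [h0, T3.H88.br_zero] at h1
    calc γ = mulF (br V b) (mulF (br V b') γ) := by rw [h', h]
      _ = mulF (mulF (br V b) (br V b')) γ := (mulF_assoc _ _ _).symm
      _ = 0 := by rw [← h1, mulF_zero_left]

omit [Finite G] [Fact ℓ.Prime] in
theorem zc_le {V : Subgroup G} {z : G} (hz : z ∈ Zc V) : V ≤ Cu z := fun v hv =>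
  Subgroup.mem_centralizer_singleton_iff.2 (Subgroup.mem_centralizer_iff.1 hz.2 v hv)

/-- existence of the local block -/
theorem loc_ex (hF : GoodF ℓ F) {e : G → F} {V : Subgroup G} {γ : G → F} (hblk : IsBlk e)
    (htp : Tp ℓ e V) (hγ : Bx (Subgroup.centralizer (V : Set G)) γ)
    (hund : mulF (br V e) γ = γ) {u : G} (hu : u ∈ Zc V) :
    ∃ b, Lb ℓ e V u b ∧ mulF (br V b) γ = γ := by
  have hVC : V ≤ Cu u := zc_le hu
  have hXC : Subgroup.centralizer (V : Set G) ≤ Cu u := T3.H88.cent_le_cu hu.1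
  have hel := T3.H88.el_of_mem htp.pg hu.1
  have heI := T3.H88.idem_cu hF hblk.1 hel
  set E : G → F := PP.ext0 (Cu u) (fun t : Cu u => e t) with hE
  have hEX : Ix (Cu u) E := by
    refine ⟨fun x hx => Pool.Agent.PP.H46.ext0_of_not_mem _ hx, ?_⟩
    rw [hE, Pool.Agent.PP.H46.restr_ext0]
    exact heI
  have hbrE : br V E = br V e := by
    funext g
    by_cases hg : g ∈ Subgroup.centralizer (V : Set G)
    · rw [Pool.Agent.PP.H66.br_of_mem hg, Pool.Agent.PP.H66.br_of_mem hg, hE,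
        Pool.Agent.PP.H46.ext0_of_mem _ (hXC hg)]
    · rw [Pool.Agent.PP.H66.br_of_not_mem hg, Pool.Agent.PP.H66.br_of_not_mem hg]
  have hext_add : ∀ a b : Cu u → F,
      PP.ext0 (Cu u) (a + b) = PP.ext0 (Cu u) a + PP.ext0 (Cu u) b := by
    intro a b
    funext x
    by_cases hx : x ∈ Cu u
    · rw [Pool.Agent.PP.H46.ext0_of_mem _ hx, Pi.add_apply, Pi.add_apply,
        Pool.Agent.PP.H46.ext0_of_mem _ hx, Pool.Agent.PP.H46.ext0_of_mem _ hx]
    · rw [Pool.Agent.PP.H46.ext0_of_not_mem _ hx, Pi.add_apply,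
        Pool.Agent.PP.H46.ext0_of_not_mem _ hx, Pool.Agent.PP.H46.ext0_of_not_mem _ hx, add_zero]
  have hext_zero : PP.ext0 (Cu u) (0 : Cu u → F) = 0 := by
    funext x
    by_cases hx : x ∈ Cu u
    · rw [Pool.Agent.PP.H46.ext0_of_mem _ hx]
      rfl
    · rw [Pool.Agent.PP.H46.ext0_of_not_mem _ hx]
      rfl
  obtain ⟨b₀, hb₀, heb₀, hL₀⟩ := K9.H24.exists_blk
    (fun a : Cu u → F => mulF (br V (PP.ext0 (Cu u) a)) γ)
    (by
      show mulF (br V (PP.ext0 (Cu u) 0)) γ = 0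
      rw [hext_zero, T3.H88.br_zero, mulF_zero_left])
    (by
      intro a b
      show mulF (br V (PP.ext0 (Cu u) (a + b))) γ =
        mulF (br V (PP.ext0 (Cu u) a)) γ + mulF (br V (PP.ext0 (Cu u) b)) γ
      rw [hext_add, T3.H88.br_add, K9.H24.mulF_add_l])
    heI
    (by
      show mulF (br V E) γ ≠ 0
      rw [hbrE, hund]
      exact hγ.ne)
  have hrestr : (fun t : Cu u => PP.ext0 (Cu u) b₀ t) = b₀ := Pool.Agent.PP.H46.restr_ext0 _
  have hbx : Bx (Cu u) (PP.ext0 (Cu u) b₀) := by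
    refine ⟨fun x hx => Pool.Agent.PP.H46.ext0_of_not_mem _ hx, ?_⟩
    rw [hrestr]
    exact hb₀
  have hbr : mulF (br V (PP.ext0 (Cu u) b₀)) γ = γ := by
    have hix := T3.H88.ix_br hF htp.pg hVC hXC hbx.ix
    rw [hix.comm hγ.ix]
    rcases hγ.dich' hix with h | h
    · exact h
    · exfalso
      apply hL₀
      show mulF (br V (PP.ext0 (Cu u) b₀)) γ = 0
      rw [hix.comm hγ.ix, h]
  refine ⟨PP.ext0 (Cu u) b₀, ⟨hblk, htp, hu.1, fun v hv => ?_, hbx, ?_, ?_⟩, hbr⟩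
  · exact Subgroup.mem_centralizer_iff.1 hu.2 v hv
  · rw [hrestr]
    exact heb₀
  · by_contra hcon
    apply hγ.ne
    have h0 : br V (PP.ext0 (Cu u) b₀) = 0 := by
      funext g
      by_cases hg : g ∈ Subgroup.centralizer (V : Set G)
      · rw [Pool.Agent.PP.H66.br_of_mem hg]
        by_contra h1
        exact hcon ⟨g, hg, h1⟩
      · rw [Pool.Agent.PP.H66.br_of_not_mem hg]
        rfl
    rw [← hbr, h0, mulF_zero_left]

omit [Finite G] [Fact ℓ.Prime] in
/-- restriction of compatible functions -/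
theorem cm_mono {P P' : Subgroup G} (h : P ≤ P') {β : Subgroup G → G → F} (hβ : Cm P' β) :
    Cm P β :=
  ⟨fun Q hQ => hβ.bx Q (hQ.trans h), fun Q S h1 h2 => hβ.st Q S h1 (h2.trans h),
    fun Q S h1 h2 => hβ.br Q S h1 (h2.trans h)⟩

omit [Finite G] in
theorem conjS_mono (g : G) {Q S : Subgroup G} (h : Q ≤ S) : conjS g Q ≤ conjS g S := by
  intro x hx
  rw [T3.H62.mem_conjS] at hx ⊢
  exact h hx

/-- the conjugate of a compatible function -/
theorem cm_conj {V : Subgroup G} {g : G} {β : Subgroup G → G → F} (hβ : Cm (conjS g V) β) :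
    Cm V (fun Q => cj g⁻¹ (β (conjS g Q))) := by
  refine ⟨fun Q hQ => ?_, fun Q S hQS hS hN s hs => ?_, fun Q S hQS hS hN => ?_⟩
  · refine T3.H62.bx_cj (X := Subgroup.centralizer (conjS g Q : Set G)) (fun x => ?_)
      (hβ.bx (conjS g Q) (conjS_mono g hQ))
    rw [T3.H62.mem_cent_conjS]
    have e : g⁻¹ * (g⁻¹⁻¹ * x * g⁻¹) * g = x := by group
    rw [e]
  · have hN' : conjS g S ≤ Subgroup.normalizer (conjS g Q : Set G) := by
      intro x hx
      rw [T3.H62.mem_conjS] at hx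
      rw [T3.H62.mem_norm_conjS]
      exact hN hx
    have h1 := hβ.st (conjS g Q) (conjS g S) (conjS_mono g hQS) (conjS_mono g hS) hN'
      (g * s * g⁻¹) ((T3.H62.conjS_mem_iff s).2 hs)
    change cj s (cj g⁻¹ (β (conjS g Q))) = cj g⁻¹ (β (conjS g Q))
    have e : s * g⁻¹ = g⁻¹ * (g * s * g⁻¹) := by group
    rw [cj_cj, e, ← cj_cj, h1]
  · have hN' : conjS g S ≤ Subgroup.normalizer (conjS g Q : Set G) := by
      intro x hx
      rw [T3.H62.mem_conjS] at hx
      rw [T3.H62.mem_norm_conjS]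
      exact hN hx
    have h1 := hβ.br (conjS g Q) (conjS g S) (conjS_mono g hQS) (conjS_mono g hS) hN'
    change mulF (br S (cj g⁻¹ (β (conjS g Q)))) (cj g⁻¹ (β (conjS g S))) =
      cj g⁻¹ (β (conjS g S))
    have h2 := T2.H65.cj_br g⁻¹ (conjS g S) (β (conjS g Q))
    have h3 : conjS g⁻¹ (conjS g S) = S := by
      ext x
      rw [T3.H62.mem_conjS, T3.H62.mem_conjS]
      have e : g⁻¹ * (g⁻¹⁻¹ * x * g⁻¹) * g = x := by group
      rw [e]
    rw [h3] at h2
    rw [h2, ← cj_mulF, h1]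

omit [Finite G] in
theorem conjS_zpowers (g u : G) :
    conjS g (Subgroup.zpowers (g⁻¹ * u * g)) = Subgroup.zpowers u := by
  ext x
  rw [T3.H62.mem_conjS, Subgroup.mem_zpowers_iff, Subgroup.mem_zpowers_iff]
  have e : ∀ k : ℤ, (g⁻¹ * u * g) ^ k = g⁻¹ * u ^ k * g := by
    intro k
    have h := conj_zpow (i := k) (a := g⁻¹) (b := u)
    rw [inv_inv] at h
    exact h
  constructor
  · rintro ⟨k, hk⟩
    rw [e] at hk
    exact ⟨k, mul_left_cancel (mul_right_cancel hk)⟩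
  · rintro ⟨k, hk⟩
    exact ⟨k, by rw [e, hk]⟩

omit [Finite G] in
/-- restriction to the centraliser of `u` is the Brauer map of the group generated by `u` -/
theorem rs_eq_br (u : G) (a : G → F) : rs (Cu u) a = br (Subgroup.zpowers u) a := by
  classical
  funext x
  unfold rs
  by_cases hx : x ∈ Cu u
  · rw [if_pos hx, Pool.Agent.PP.H66.br_of_mem]
    rw [T3.H88.cu_eq]
    exact hx
  · rw [if_neg hx, Pool.Agent.PP.H66.br_of_not_mem]
    rw [T3.H88.cu_eq]
    exact hx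

end tools

theorem zlo (hPRX : PrxStmt) (hPRU : PruStmt) (hPRM : PrmStmt) (hUNB : UnbStmt)
    (hSCL : SclStmt) : ZloStmt := by
  classical
  intro ℓ _ M _ hM G _ _ e V γ hblk htp hγ hund p hcard
  have hF : GoodF ℓ (FF M) := H50.fld ℓ Fact.out M hM
  have hab : ∀ a ∈ Zc V, ∀ b ∈ Zc V, a * b = b * a := fun a ha b hb =>
    (Subgroup.mem_centralizer_iff.1 hb.2 a ha.1)
  obtain ⟨hUm, hUle, -⟩ := T2.H32.pwu G (ℓ ^ p) (Zc V) hab
  set Z : Subgroup G := Uw (ℓ ^ p) (Zc V) with hZdef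
  have hZV : ∀ z ∈ Z, z ∈ V := fun z hz => (hUle hz).1
  have hVCz : ∀ z ∈ Z, V ≤ Cu z := fun z hz => zc_le (hUle hz)
  -- the local blocks
  have hex : ∀ z : G, ∃ b : G → FF M, z ∈ Z → Lb ℓ e V z b ∧ mulF (br V b) γ = γ := by
    intro z
    by_cases hz : z ∈ Z
    · obtain ⟨b, hb⟩ := loc_ex hF hblk htp hγ hund (hUle hz)
      exact ⟨b, fun _ => hb⟩
    · exact ⟨0, fun h => absurd h hz⟩
  choose b hb using hex
  have hnrm : ∀ t ∈ Tg V γ, ∀ z ∈ Z, t * z * t⁻¹ ∈ Z := by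
    intro t ht z hz
    obtain ⟨w, hw, rfl⟩ := (hUm z).1 hz
    have ht' : t ∈ Subgroup.normalizer (V : Set G) := ht.1
    rw [hUm]
    refine ⟨t * w * t⁻¹, ⟨?_, ?_⟩, ?_⟩
    · exact (Subgroup.mem_normalizer_iff.1 ht' w).1 hw.1
    · change t * w * t⁻¹ ∈ Subgroup.centralizer (V : Set G)
      rw [Subgroup.mem_centralizer_iff]
      intro v hv
      have hv' : t⁻¹ * v * t ∈ V := (conj_mem_iff ht' v).2 hv
      have h1 := Subgroup.mem_centralizer_iff.1 hw.2 _ hv'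
      have h2 : v * (t * w * t⁻¹) = t * ((t⁻¹ * v * t) * w) * t⁻¹ := by group
      rw [h2, h1]
      group
    · rw [conj_pow]
  -- the compatible function of `(V, γ)`
  obtain ⟨β₀, hβ₀, hβ₀V⟩ := hPRX ℓ (FF M) hF G V htp.pg γ hγ
  have hA : ∀ z ∈ Z, β₀ (Subgroup.zpowers z) = b z := by
    intro z hz
    have hzV : Subgroup.zpowers z ≤ V := by
      rw [Subgroup.zpowers_le]
      exact hZV z hz
    have hN : V ≤ Subgroup.normalizer (Subgroup.zpowers z : Set G) := by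
      refine (hVCz z hz).trans ?_
      rw [← T3.H88.cu_eq]
      exact Subgroup.centralizer_le_normalizer _
    have h1 := hβ₀.br (Subgroup.zpowers z) V hzV le_rfl hN
    rw [hβ₀V] at h1
    have h2 := hβ₀.bx (Subgroup.zpowers z) hzV
    rw [T3.H88.cu_eq] at h2
    exact loc_un hF htp.pg hγ (hVCz z hz) h2 (hb z hz).1.bx h1 (hb z hz).2
  have hscl := hSCL ℓ M hM G e V γ hblk htp hγ hund p hcard β₀ hβ₀ hβ₀V
  have hZd : Zd ℓ e V Z γ b := by
    refine ⟨hblk, htp, hγ, hund, fun z hz => hZV z hz, fun z hz v hv => ?_, hnrm, hb, ?_⟩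
    · exact Subgroup.mem_centralizer_iff.1 (hUle hz).2 v hv
    · intro z hz z' hz' x hx hcj
      exact hscl z' hz' (b z') (hb z' hz').1 (hb z' hz').2 z (hZV z hz) x hx
        (hcj.trans (hA z hz).symm)
  refine ⟨b, hZd, ?_⟩
  -- the local property
  intro P hP i hi hei hbri
  obtain ⟨β', hβ', hβ'i⟩ := hUNB ℓ (FF M) hF G P hP i hi hbri
  have hBP : Bx (Subgroup.centralizer (P : Set G)) (β' P) := hβ'.bx P le_rfl
  have hiP : mulF (br P i) (β' P) = br P i := hβ'i P le_rfl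
  have hPe := brx hF hP hblk.1
  have heinv : ∀ v ∈ P, ∀ x, e (v * x * v⁻¹) = e x := fun v _ x => hblk.1.1 x v
  have hePi : mulF (br P e) (br P i) = br P i := by
    rw [← Pool.Agent.PP.H66.br_mulF hF hP heinv hi.iv, hei]
  have hund' : mulF (br P e) (β' P) = β' P := by
    rw [hPe.comm hBP.ix]
    rcases hBP.dich' hPe with h | h
    · exact h
    · exfalso
      apply hbri
      have hcomm : ∀ a : G → FF M, (∀ x, x ∉ Subgroup.centralizer (P : Set G) → a x = 0) →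
          mulF (br P e) a = mulF a (br P e) := fun a ha =>
        (mulF_comm_of (K := Subgroup.centralizer (P : Set G)) ha
          (fun k hk => hPe.inv hk)).symm
      have h1 : mulF (br P i) (br P e) = br P i := by
        rw [← hcomm _ (fun x hx => Pool.Agent.PP.H66.br_of_not_mem hx), hePi]
      calc br P i = mulF (mulF (br P i) (β' P)) (br P e) := by rw [hiP, h1]
        _ = mulF (br P i) (mulF (β' P) (br P e)) := mulF_assoc _ _ _
        _ = 0 := by rw [h, Pool.Agent.PP.H46.mulF_zero]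
  obtain ⟨g, β, hβ, hPg, hβg, hβP⟩ := hPRM ℓ M hM G e V γ hblk htp hγ hund P hP (β' P) hBP hund'
  have hββ' : ∀ Q ≤ P, β Q = β' Q := hPRU ℓ (FF M) hF G P hP β β' (cm_mono hPg hβ) hβ' hβP
  have hβ₁ : Cm V (fun Q => cj g⁻¹ (β (conjS g Q))) := cm_conj hβ
  have hβ₁₀ : ∀ Q ≤ V, cj g⁻¹ (β (conjS g Q)) = β₀ Q :=
    hPRU ℓ (FF M) hF G V htp.pg (fun Q => cj g⁻¹ (β (conjS g Q))) β₀ hβ₁ hβ₀ (by
      change cj g⁻¹ (β (conjS g V)) = β₀ V
      rw [hβg, cj_inv_cj, hβ₀V])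
  -- the elements of `P`
  have hu1 : ∀ u ∈ P, mulF (rs (Cu u) i) (β (Subgroup.zpowers u)) = rs (Cu u) i := by
    intro u hu
    have hle : Subgroup.zpowers u ≤ P := by
      rw [Subgroup.zpowers_le]
      exact hu
    rw [rs_eq_br, hββ' _ hle]
    exact hβ'i _ hle
  have hu2 : ∀ u ∈ P, β (Subgroup.zpowers u) = cj g (β₀ (Subgroup.zpowers (g⁻¹ * u * g))) := by
    intro u hu
    have h1 : g⁻¹ * u * g ∈ V := T3.H62.mem_conjS.1 (hPg hu)
    have h2 := hβ₁₀ (Subgroup.zpowers (g⁻¹ * u * g)) (by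
      rw [Subgroup.zpowers_le]
      exact h1)
    rw [conjS_zpowers] at h2
    rw [← h2, cj_cj_inv]
  refine ⟨g, hPg, ?_, ?_⟩
  · intro u hu huZ
    have h1 := hu1 u hu
    rw [hu2 u hu, hA _ (T3.H62.mem_conjS.1 huZ)] at h1
    exact h1
  · intro u hu huZ z hz q hq
    have hbx1 : Bx (Cu u) (cj q (b z)) := T3.H49.bx_cj hq (hb z hz).1.bx
    have hbx2 : Bx (Cu u) (β (Subgroup.zpowers u)) := by
      have h1 := hβ.bx (Subgroup.zpowers u) (by
        rw [Subgroup.zpowers_le]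
        exact hPg hu)
      rw [T3.H88.cu_eq] at h1
      exact h1
    rcases hbx2.dich hbx1 with h | h
    · exfalso
      have hu0 : g⁻¹ * u * g ∈ V := T3.H62.mem_conjS.1 (hPg hu)
      have h1 : cj (g⁻¹ * q) (b z) = β₀ (Subgroup.zpowers (g⁻¹ * u * g)) := by
        rw [← cj_cj, ← h, hu2 u hu, cj_inv_cj]
      have h2 : g⁻¹ * q * z * (g⁻¹ * q)⁻¹ = g⁻¹ * u * g := by
        rw [← hq]
        group
      obtain ⟨t, ht, htz⟩ := hscl z hz (b z) (hb z hz).1 (hb z hz).2 _ hu0 (g⁻¹ * q) h2 h1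
      apply huZ
      rw [T3.H62.mem_conjS, ← htz]
      exact hnrm t ht z hz
    · rw [← hu1 u hu, mulF_assoc, h, Pool.Agent.PP.H46.mulF_zero]

end Pool.Agent.PP.T10.H69
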