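import Pool.Agent.AT10.Stmts3
import Pool.Agent.Helper69_AT10.ZLO

/-!
# AT10, row STF: the conclusion of the STAR block
-/

open scoped BigOperators

set_option autoImplicit false

noncomputable section

namespace Pool.Agent.PP.T10.H69

open Pool.Agent.Helper51_AWC Pool.Agent.Helper79_WRA Pool.Agent.PP Pool.Agent.PP.KF
open Pool.Agent.PP.K9 Pool.Agent.PP.K9.H97 Pool.Agent.PP.H75 Pool.Agent.PP.T3 Pool.Agent.PP.T2
open Pool.Agent.PP.T5 Pool.Agent.PP.TB
open Pool.Agent.PP.T8 (rs pw fv rd Ip Rv)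

attribute [local instance] Ideal.Quotient.field

/-- a block of `C(V)` under `br_V(e)` -/
theorem gam_ex {F G : Type} [Field F] [Group G] [Finite G] {ℓ : ℕ} [Fact ℓ.Prime] (hF : GoodF ℓ F)
    {e : G → F} {V : Subgroup G} (hblk : IsBlk e) (htp : Tp ℓ e V) :
    ∃ γ : G → F, Bx (Subgroup.centralizer (V : Set G)) γ ∧ mulF (br V e) γ = γ := by
  have hX := brx hF htp.pg hblk.1
  obtain ⟨g, hg, hg0⟩ := htp.gd
  obtain ⟨c, hc, hec, -⟩ := K9.H24.exists_blk
    (fun a : Subgroup.centralizer (V : Set G) → F => a)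
    rfl (fun _ _ => rfl) hX.idem (by
      intro h0
      have h1 := congrFun h0 ⟨g, hg⟩
      change br V e g = 0 at h1
      rw [Pool.Agent.PP.H66.br_of_mem hg] at h1
      exact hg0 h1)
  have hrestr : (fun t : Subgroup.centralizer (V : Set G) =>
      PP.ext0 (Subgroup.centralizer (V : Set G)) c t) = c := Pool.Agent.PP.H46.restr_ext0 _
  have hbx : Bx (Subgroup.centralizer (V : Set G))
      (PP.ext0 (Subgroup.centralizer (V : Set G)) c) := by
    refine ⟨fun x hx => Pool.Agent.PP.H46.ext0_of_not_mem _ hx, ?_⟩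
    rw [hrestr]
    exact hc
  refine ⟨_, hbx, ?_⟩
  apply eq_of_res (mulF_supp _ hX.supp hbx.supp) hbx.supp
  rw [mulF_res _ _ hX.supp, hrestr]
  exact hec

theorem stf (hCLZ : TB.ClzStmt) (hZLO : ZloStmt) (hSTR : StrStmt) : StfStmt := by
  intro ℓ _ M _ hM G _ _ e V r p hblk htp hCl
  have hF : GoodF ℓ (FF M) := H50.fld ℓ Fact.out M hM
  obtain ⟨γ, hγ, hund⟩ := gam_ex hF hblk htp
  have hcard := (hCLZ ℓ G r p V htp.pg hCl).1
  obtain ⟨b, hZd, hLo⟩ := hZLO ℓ M hM G e V γ hblk htp hγ hund p hcard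
  exact ⟨γ, b, hZd, hSTR ℓ M hM G e V _ γ b hZd hLo⟩

end Pool.Agent.PP.T10.H69
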